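import Mathlib

/-!
# Automation: `fun_prop` for primitive recursive functions

After importing this file `fun_prop` proves `Primrec (fun a => ...)` for expressions built from the
usual operations on numbers, pairs, lists, options and booleans. Local hypotheses
`h : Primrec (fun p : α × β => f p.1 p.2)` are used automatically.
-/

set_option autoImplicit false

namespace Pool.Agent.PR

open Function

variable {α β γ δ σ : Type} [Primcodable α] [Primcodable β] [Primcodable γ] [Primcodable δ]
  [Primcodable σ]

attribute [fun_prop] Primrec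

@[fun_prop] theorem id : Primrec (fun a : α => a) := Primrec.id
@[fun_prop] theorem const (b : β) : Primrec (fun _ : α => b) := Primrec.const b
@[fun_prop] theorem comp {f : β → γ} {g : α → β} (hf : Primrec f) (hg : Primrec g) :
    Primrec (fun a => f (g a)) := Primrec.comp hf hg
@[fun_prop] theorem pair {f : α → β} {g : α → γ} (hf : Primrec f) (hg : Primrec g) :
    Primrec (fun a => (f a, g a)) := Primrec.pair hf hg
theorem fst : Primrec (fun p : α × β => p.1) := Primrec.fst
theorem snd : Primrec (fun p : α × β => p.2) := Primrec.snd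
@[fun_prop] theorem fst' {f : α → β × γ} (hf : Primrec f) : Primrec (fun a => (f a).1) :=
  Primrec.fst.comp hf
@[fun_prop] theorem snd' {f : α → β × γ} (hf : Primrec f) : Primrec (fun a => (f a).2) :=
  Primrec.snd.comp hf

/-! ### Numbers -/

@[fun_prop] theorem succ {f : α → ℕ} (hf : Primrec f) : Primrec (fun a => f a + 1) :=
  Primrec.succ.comp hf
@[fun_prop] theorem natSucc {f : α → ℕ} (hf : Primrec f) : Primrec (fun a => Nat.succ (f a)) :=
  Primrec.succ.comp hf
@[fun_prop] theorem pred {f : α → ℕ} (hf : Primrec f) : Primrec (fun a => f a - 1) :=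
  Primrec.pred.comp hf
@[fun_prop] theorem add {f g : α → ℕ} (hf : Primrec f) (hg : Primrec g) :
    Primrec (fun a => f a + g a) := Primrec.nat_add.comp hf hg
@[fun_prop] theorem sub {f g : α → ℕ} (hf : Primrec f) (hg : Primrec g) :
    Primrec (fun a => f a - g a) := Primrec.nat_sub.comp hf hg
@[fun_prop] theorem mul {f g : α → ℕ} (hf : Primrec f) (hg : Primrec g) :
    Primrec (fun a => f a * g a) := Primrec.nat_mul.comp hf hg
@[fun_prop] theorem div {f g : α → ℕ} (hf : Primrec f) (hg : Primrec g) :
    Primrec (fun a => f a / g a) := Primrec.nat_div.comp hf hg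
@[fun_prop] theorem mod {f g : α → ℕ} (hf : Primrec f) (hg : Primrec g) :
    Primrec (fun a => f a % g a) := Primrec.nat_mod.comp hf hg
@[fun_prop] theorem min {f g : α → ℕ} (hf : Primrec f) (hg : Primrec g) :
    Primrec (fun a => Min.min (f a) (g a)) := Primrec.nat_min.comp hf hg
@[fun_prop] theorem max {f g : α → ℕ} (hf : Primrec f) (hg : Primrec g) :
    Primrec (fun a => Max.max (f a) (g a)) := Primrec.nat_max.comp hf hg
@[fun_prop] theorem pow {f g : α → ℕ} (hf : Primrec f) (hg : Primrec g) :
    Primrec (fun a => f a ^ g a) :=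
  (Primrec₂.unpaired'.1 Nat.Primrec.pow : Primrec₂ (fun a b : ℕ => a ^ b)).comp hf hg

/-! ### Booleans and decidable predicates -/

@[fun_prop] theorem not {f : α → Bool} (hf : Primrec f) : Primrec (fun a => !(f a)) :=
  Primrec.not.comp hf
@[fun_prop] theorem and {f g : α → Bool} (hf : Primrec f) (hg : Primrec g) :
    Primrec (fun a => f a && g a) := Primrec.and.comp hf hg
@[fun_prop] theorem or {f g : α → Bool} (hf : Primrec f) (hg : Primrec g) :
    Primrec (fun a => f a || g a) := Primrec.or.comp hf hg
@[fun_prop] theorem cond {c : α → Bool} {f g : α → β} (hc : Primrec c) (hf : Primrec f)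
    (hg : Primrec g) : Primrec (fun a => bif c a then f a else g a) := Primrec.cond hc hf hg

theorem decide_of {p : α → Prop} [DecidablePred p] (h : PrimrecPred p) :
    Primrec (fun a => decide (p a)) := primrecPred_iff_primrec_decide.1 h

theorem pred_of {p : α → Prop} [DecidablePred p] (h : Primrec (fun a => decide (p a))) :
    PrimrecPred p := primrecPred_iff_primrec_decide.2 h

@[fun_prop] theorem eq [DecidableEq β] {f g : α → β} (hf : Primrec f) (hg : Primrec g) :
    Primrec (fun a => decide (f a = g a)) := decide_of (Primrec.eq.comp hf hg)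
@[fun_prop] theorem beq [DecidableEq β] {f g : α → β} (hf : Primrec f) (hg : Primrec g) :
    Primrec (fun a => f a == g a) := Primrec.beq.comp hf hg
@[fun_prop] theorem lt {f g : α → ℕ} (hf : Primrec f) (hg : Primrec g) :
    Primrec (fun a => decide (f a < g a)) := decide_of (Primrec.nat_lt.comp hf hg)
@[fun_prop] theorem le {f g : α → ℕ} (hf : Primrec f) (hg : Primrec g) :
    Primrec (fun a => decide (f a ≤ g a)) := decide_of (Primrec.nat_le.comp hf hg)

@[fun_prop]
theorem decide_and {p q : α → Prop} [DecidablePred p] [DecidablePred q]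
    (hp : Primrec (fun a => decide (p a))) (hq : Primrec (fun a => decide (q a))) :
    Primrec (fun a => decide (p a ∧ q a)) :=
  (and hp hq).of_eq (fun a => by by_cases h1 : p a <;> by_cases h2 : q a <;> simp [h1, h2])

@[fun_prop]
theorem decide_or {p q : α → Prop} [DecidablePred p] [DecidablePred q]
    (hp : Primrec (fun a => decide (p a))) (hq : Primrec (fun a => decide (q a))) :
    Primrec (fun a => decide (p a ∨ q a)) :=
  (or hp hq).of_eq (fun a => by by_cases h1 : p a <;> by_cases h2 : q a <;> simp [h1, h2])

@[fun_prop]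
theorem decide_not {p : α → Prop} [DecidablePred p]
    (hp : Primrec (fun a => decide (p a))) : Primrec (fun a => decide (¬ p a)) :=
  (not hp).of_eq (fun a => by by_cases h1 : p a <;> simp [h1])

@[fun_prop]
theorem decide_iff {p q : α → Prop} [DecidablePred p] [DecidablePred q]
    (hp : Primrec (fun a => decide (p a))) (hq : Primrec (fun a => decide (q a))) :
    Primrec (fun a => decide (p a ↔ q a)) :=
  (eq hp hq).of_eq (fun a => by by_cases h1 : p a <;> by_cases h2 : q a <;> simp [h1, h2])

@[fun_prop]
theorem decide_imp {p q : α → Prop} [DecidablePred p] [DecidablePred q]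
    (hp : Primrec (fun a => decide (p a))) (hq : Primrec (fun a => decide (q a))) :
    Primrec (fun a => decide (p a → q a)) :=
  (or (not hp) hq).of_eq (fun a => by by_cases h1 : p a <;> by_cases h2 : q a <;> simp [h1, h2])

@[fun_prop]
theorem ne [DecidableEq β] {f g : α → β} (hf : Primrec f) (hg : Primrec g) :
    Primrec (fun a => decide (f a ≠ g a)) := decide_not (eq hf hg)

@[fun_prop]
theorem ite {p : α → Prop} [DecidablePred p] {f g : α → β}
    (hp : Primrec (fun a => decide (p a))) (hf : Primrec f) (hg : Primrec g) :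
    Primrec (fun a => if p a then f a else g a) := Primrec.ite (pred_of hp) hf hg

/-! ### Options -/

@[fun_prop] theorem some {f : α → β} (hf : Primrec f) : Primrec (fun a => Option.some (f a)) :=
  Primrec.option_some.comp hf
@[fun_prop] theorem optionGetD {o : α → Option β} {d : α → β} (ho : Primrec o) (hd : Primrec d) :
    Primrec (fun a => (o a).getD (d a)) := Primrec.option_getD.comp ho hd
@[fun_prop] theorem optionIsSome {o : α → Option β} (ho : Primrec o) :
    Primrec (fun a => (o a).isSome) := Primrec.option_isSome.comp ho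
@[fun_prop] theorem optionMap {f : α → β → γ} {o : α → Option β}
    (hf : Primrec (fun p : α × β => f p.1 p.2)) (ho : Primrec o) :
    Primrec (fun a => (o a).map (f a)) := Primrec.option_map ho hf
@[fun_prop] theorem optionBind {f : α → β → Option γ} {o : α → Option β}
    (hf : Primrec (fun p : α × β => f p.1 p.2)) (ho : Primrec o) :
    Primrec (fun a => (o a).bind (f a)) := Primrec.option_bind ho hf
theorem optionCase {o : α → Option β} {f : α → γ} {g : α → β → γ} (ho : Primrec o)
    (hf : Primrec f) (hg : Primrec (fun p : α × β => g p.1 p.2)) :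
    Primrec (fun a => match o a with | none => f a | Option.some b => g a b) :=
  (Primrec.option_casesOn ho hf hg).of_eq (fun a => by cases o a <;> rfl)

/-! ### Lists -/

@[fun_prop] theorem cons {f : α → β} {l : α → List β} (hf : Primrec f) (hl : Primrec l) :
    Primrec (fun a => f a :: l a) := Primrec.list_cons.comp hf hl
@[fun_prop] theorem append {l m : α → List β} (hl : Primrec l) (hm : Primrec m) :
    Primrec (fun a => l a ++ m a) := Primrec.list_append.comp hl hm
@[fun_prop] theorem tail {l : α → List β} (hl : Primrec l) : Primrec (fun a => (l a).tail) :=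
  Primrec.list_tail.comp hl
@[fun_prop] theorem head? {l : α → List β} (hl : Primrec l) : Primrec (fun a => (l a).head?) :=
  Primrec.list_head?.comp hl
@[fun_prop] theorem headD {l : α → List β} {d : α → β} (hl : Primrec l) (hd : Primrec d) :
    Primrec (fun a => (l a).headD (d a)) :=
  (optionGetD (head? hl) hd).of_eq (fun a => by cases l a <;> rfl)
@[fun_prop] theorem reverse {l : α → List β} (hl : Primrec l) :
    Primrec (fun a => (l a).reverse) := Primrec.list_reverse.comp hl
@[fun_prop] theorem length {l : α → List β} (hl : Primrec l) : Primrec (fun a => (l a).length) :=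
  Primrec.list_length.comp hl
@[fun_prop] theorem isEmpty {l : α → List β} (hl : Primrec l) :
    Primrec (fun a => (l a).isEmpty) :=
  (eq (length hl) (const 0)).of_eq (fun a => by cases l a <;> simp)
@[fun_prop] theorem range {n : α → ℕ} (hn : Primrec n) : Primrec (fun a => List.range (n a)) :=
  Primrec.list_range.comp hn
@[fun_prop] theorem flatten {l : α → List (List β)} (hl : Primrec l) :
    Primrec (fun a => (l a).flatten) := Primrec.list_flatten.comp hl
@[fun_prop] theorem map {f : α → β → γ} {l : α → List β}
    (hf : Primrec (fun p : α × β => f p.1 p.2)) (hl : Primrec l) :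
    Primrec (fun a => (l a).map (f a)) := Primrec.list_map hl hf
@[fun_prop] theorem flatMap {f : α → β → List γ} {l : α → List β}
    (hf : Primrec (fun p : α × β => f p.1 p.2)) (hl : Primrec l) :
    Primrec (fun a => (l a).flatMap (f a)) := Primrec.list_flatMap hl hf
@[fun_prop] theorem filterMap {f : α → β → Option γ} {l : α → List β}
    (hf : Primrec (fun p : α × β => f p.1 p.2)) (hl : Primrec l) :
    Primrec (fun a => (l a).filterMap (f a)) := Primrec.listFilterMap hl hf
@[fun_prop] theorem filter {f : α → β → Bool} {l : α → List β}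
    (hf : Primrec (fun p : α × β => f p.1 p.2)) (hl : Primrec l) :
    Primrec (fun a => (l a).filter (f a)) := by
  have h : Primrec (fun a => (l a).filterMap (fun b => bif f a b then Option.some b else none)) := by
    refine filterMap (f := fun a b => bif f a b then Option.some b else none) ?_ hl
    exact cond hf (some (Primrec.snd)) (const none)
  refine h.of_eq (fun a => ?_)
  induction l a with
  | nil => rfl
  | cons b m ih =>
    rw [List.filterMap_cons, List.filter_cons, ih]
    cases f a b <;> rfl
@[fun_prop] theorem any {f : α → β → Bool} {l : α → List β}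
    (hf : Primrec (fun p : α × β => f p.1 p.2)) (hl : Primrec l) :
    Primrec (fun a => (l a).any (f a)) :=
  (not (isEmpty (filter hf hl))).of_eq (fun a => by
    rw [Bool.eq_iff_iff]; simp)
@[fun_prop] theorem all {f : α → β → Bool} {l : α → List β}
    (hf : Primrec (fun p : α × β => f p.1 p.2)) (hl : Primrec l) :
    Primrec (fun a => (l a).all (f a)) :=
  (not (any (f := fun a b => !(f a b)) (not hf) hl)).of_eq (fun a => by
    rw [Bool.eq_iff_iff]; simp)
@[fun_prop] theorem getElem? {l : α → List β} {n : α → ℕ} (hl : Primrec l) (hn : Primrec n) :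
    Primrec (fun a => (l a)[n a]?) := Primrec.list_getElem?.comp hl hn
@[fun_prop] theorem getD {l : α → List β} {n : α → ℕ} {d : α → β} (hl : Primrec l)
    (hn : Primrec n) (hd : Primrec d) : Primrec (fun a => (l a).getD (n a) (d a)) :=
  (optionGetD (getElem? hl hn) hd).of_eq (fun a => by simp [List.getD_eq_getElem?_getD])
@[fun_prop] theorem drop {l : α → List β} {n : α → ℕ} (hl : Primrec l) (hn : Primrec n) :
    Primrec (fun a => (l a).drop (n a)) := Primrec.list_drop.comp hn hl
@[fun_prop] theorem take {l : α → List β} {n : α → ℕ} (hl : Primrec l) (hn : Primrec n) :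
    Primrec (fun a => (l a).take (n a)) := Primrec.list_take.comp hn hl
@[fun_prop] theorem replicate {n : α → ℕ} {f : α → β} (hn : Primrec n) (hf : Primrec f) :
    Primrec (fun a => List.replicate (n a) (f a)) := by
  have h : Primrec (fun a => (List.range (n a)).map (fun _ => f a)) := by
    refine map (f := fun a _ => f a) ?_ (range hn)
    exact hf.comp Primrec.fst
  refine h.of_eq (fun a => ?_)
  rw [List.map_const', List.length_range]
@[fun_prop] theorem foldl {f : α → σ → β → σ} {l : α → List β} {s : α → σ}
    (hf : Primrec (fun p : α × (σ × β) => f p.1 p.2.1 p.2.2)) (hl : Primrec l) (hs : Primrec s) :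
    Primrec (fun a => (l a).foldl (f a) (s a)) :=
  (Primrec.list_foldl (h := fun a p => f a p.1 p.2) hl hs hf).of_eq (fun _ => rfl)
@[fun_prop] theorem foldr {f : α → β → σ → σ} {l : α → List β} {s : α → σ}
    (hf : Primrec (fun p : α × (β × σ) => f p.1 p.2.1 p.2.2)) (hl : Primrec l) (hs : Primrec s) :
    Primrec (fun a => (l a).foldr (f a) (s a)) :=
  (Primrec.list_foldr (h := fun a p => f a p.1 p.2) hl hs hf).of_eq (fun _ => rfl)
@[fun_prop] theorem sum {l : α → List ℕ} (hl : Primrec l) : Primrec (fun a => (l a).sum) := by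
  have h : Primrec (fun a => (l a).foldr (fun b s => b + s) 0) := by fun_prop
  exact h.of_eq (fun a => by rw [List.sum_eq_foldr])
@[fun_prop] theorem mem [DecidableEq β] {f : α → β} {l : α → List β} (hf : Primrec f)
    (hl : Primrec l) : Primrec (fun a => decide (f a ∈ l a)) :=
  (any (f := fun a b => decide (f a = b)) (eq (hf.comp Primrec.fst) Primrec.snd) hl).of_eq
    (fun a => by rw [Bool.eq_iff_iff]; simp)
@[fun_prop] theorem iterate {n : α → ℕ} {f : α → σ → σ} {s : α → σ}
    (hf : Primrec (fun p : α × σ => f p.1 p.2)) (hn : Primrec n) (hs : Primrec s) :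
    Primrec (fun a => (f a)^[n a] (s a)) := Primrec.nat_iterate hn hs hf

/-- Binary primitive recursive functions, in the form used by `fun_prop`. -/
theorem comp₂ {f : β → γ → δ} {g : α → β} {h : α → γ} (hf : Primrec₂ f) (hg : Primrec g)
    (hh : Primrec h) : Primrec (fun a => f (g a) (h a)) := hf.comp hg hh

/-! ### Bounded quantifiers -/

@[fun_prop]
theorem decide_forall_lt {n : α → ℕ} {p : α → ℕ → Prop} [∀ a i, Decidable (p a i)]
    (hn : Primrec n) (hp : Primrec (fun q : α × ℕ => decide (p q.1 q.2))) :
    Primrec (fun a => decide (∀ i < n a, p a i)) := by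
  have h : Primrec (fun a => (List.range (n a)).all (fun i => decide (p a i))) :=
    all (f := fun a i => decide (p a i)) hp (range hn)
  exact h.of_eq (fun a => by rw [Bool.eq_iff_iff]; simp)

/-! ### Predicates with a primitive recursive search -/

/-- `P` is of the form `∃ n, c (a, n)` with `c` primitive recursive. -/
def Sig (P : α → Prop) : Prop := ∃ c : α × ℕ → Bool, Primrec c ∧ ∀ a, P a ↔ ∃ n, c (a, n) = true

theorem Sig.congr {P Q : α → Prop} (h : Sig P) (e : ∀ a, P a ↔ Q a) : Sig Q := by
  obtain ⟨c, h1, h2⟩ := h
  exact ⟨c, h1, fun a => (e a).symm.trans (h2 a)⟩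

theorem Sig.comp {P : β → Prop} (h : Sig P) {f : α → β} (hf : Primrec f) :
    Sig (fun a => P (f a)) := by
  obtain ⟨c, h1, h2⟩ := h
  refine ⟨fun q => c (f q.1, q.2), ?_, fun a => h2 (f a)⟩
  fun_prop

theorem Sig.of_bool {c : α → Bool} (h : Primrec c) : Sig (fun a => c a = true) :=
  ⟨fun q => c q.1, by fun_prop, fun a => by simp⟩

theorem Sig.of_dec {P : α → Prop} [DecidablePred P] (h : Primrec (fun a => decide (P a))) :
    Sig P := (Sig.of_bool h).congr (fun a => by simp)

/-- The existential quantifier over a coded type. -/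
theorem Sig.ex {P : α × β → Prop} (h : Sig P) : Sig (fun a => ∃ b, P (a, b)) := by
  obtain ⟨c, h1, h2⟩ := h
  refine ⟨fun q => ((Encodable.decode (α := β) q.2.unpair.1).map
    (fun b => c ((q.1, b), q.2.unpair.2))).getD false, ?_, fun a => ?_⟩
  · have hu : Primrec (fun q : α × ℕ => q.2.unpair) := Primrec.unpair.comp Primrec.snd
    have hd : Primrec (fun q : α × ℕ => Encodable.decode (α := β) q.2.unpair.1) :=
      Primrec.decode.comp (Primrec.fst.comp hu)
    refine optionGetD (optionMap (f := fun (q : α × ℕ) (b : β) => c ((q.1, b), q.2.unpair.2))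
      ?_ hd) (const false)
    have hv : Primrec (fun p : (α × ℕ) × β => p.1.2.unpair.2) :=
      Primrec.snd.comp (hu.comp Primrec.fst)
    exact h1.comp (((Primrec.fst.comp Primrec.fst).pair Primrec.snd).pair hv)
  · constructor
    · rintro ⟨b, hb⟩
      obtain ⟨n, hn⟩ := (h2 (a, b)).1 hb
      refine ⟨Nat.pair (Encodable.encode b) n, ?_⟩
      simp [hn]
    · rintro ⟨n, hn⟩
      dsimp only at hn
      cases hd : (Encodable.decode (α := β) n.unpair.1) with
      | none => rw [hd] at hn; simp at hn
      | some b =>
        rw [hd] at hn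
        exact ⟨b, (h2 (a, b)).2 ⟨_, hn⟩⟩

theorem Sig.and {P Q : α → Prop} (h : Sig P) (h' : Sig Q) : Sig (fun a => P a ∧ Q a) := by
  obtain ⟨c, h1, h2⟩ := h
  obtain ⟨c', h1', h2'⟩ := h'
  have h : Sig (fun q : (α × ℕ) × ℕ => (c (q.1.1, q.1.2) && c' (q.1.1, q.2)) = true) :=
    Sig.of_bool (by fun_prop)
  refine h.ex.ex.congr (fun a => ?_)
  rw [h2, h2']
  simp only [Bool.and_eq_true, exists_and_left, exists_and_right]

theorem Sig.or {P Q : α → Prop} (h : Sig P) (h' : Sig Q) : Sig (fun a => P a ∨ Q a) := by
  obtain ⟨c, h1, h2⟩ := h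
  obtain ⟨c', h1', h2'⟩ := h'
  have h : Sig (fun q : α × ℕ => (c q || c' q) = true) := Sig.of_bool (by fun_prop)
  refine h.ex.congr (fun a => ?_)
  rw [h2, h2']
  simp only [Bool.or_eq_true, exists_or]

/-- Bounded universal quantifier over a list. -/
theorem Sig.all {P : α × β → Prop} (h : Sig P) {l : α → List β} (hl : Primrec l) :
    Sig (fun a => ∀ b ∈ l a, P (a, b)) := by
  obtain ⟨c, h1, h2⟩ := h
  have h3 : Sig (fun q : α × List ℕ => ((List.range (l q.1).length).all (fun i =>
      (((l q.1)[i]?).map (fun b => c ((q.1, b), q.2.getD i 0))).getD true)) = true) := by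
    refine Sig.of_bool ?_
    refine PR.all (f := fun (q : α × List ℕ) (i : ℕ) =>
      (((l q.1)[i]?).map (fun b => c ((q.1, b), q.2.getD i 0))).getD true) ?_ (by fun_prop)
    refine optionGetD (optionMap (f := fun (p : (α × List ℕ) × ℕ) (b : β) =>
      c ((p.1.1, b), p.1.2.getD p.2 0)) ?_ (by fun_prop)) (const true)
    fun_prop
  refine h3.ex.congr (fun a => ?_)
  constructor
  · rintro ⟨w, hw⟩ b hb
    obtain ⟨i, hi, rfl⟩ := List.mem_iff_getElem.1 hb
    rw [List.all_eq_true] at hw
    have := hw i (List.mem_range.2 hi)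
    rw [List.getElem?_eq_getElem hi] at this
    exact (h2 _).2 ⟨_, this⟩
  · intro hall
    have h4 : ∀ i : ℕ, ∃ n, ∀ hi : i < (l a).length, c ((a, (l a)[i]), n) = true := by
      intro i
      by_cases hi : i < (l a).length
      · obtain ⟨n, hn⟩ := (h2 _).1 (hall _ (List.getElem_mem hi))
        exact ⟨n, fun _ => hn⟩
      · exact ⟨0, fun h => absurd h hi⟩
    choose w hw using h4
    refine ⟨(List.range (l a).length).map w, ?_⟩
    rw [List.all_eq_true]
    intro i hi
    have hi' := List.mem_range.1 hi
    have h5 : ((List.range (l a).length).map w).getD i 0 = w i := by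
      rw [List.getD_eq_getElem _ _ (by simpa using hi'), List.getElem_map, List.getElem_range]
    dsimp only
    rw [List.getElem?_eq_getElem hi', h5]
    exact hw i hi'

theorem Sig.rePred {P : α → Prop} (h : Sig P) : REPred P := by
  obtain ⟨c, h1, h2⟩ := h
  have h3 : Partrec (fun a => Nat.rfind (fun n => Part.some (c (a, n)))) :=
    Partrec.rfind (p := fun a n => Part.some (c (a, n))) (h1.to_comp.partrec)
  refine h3.dom_re.of_eq (fun a => ?_)
  rw [h2, Nat.rfind_dom]
  constructor
  · rintro ⟨n, hn, _⟩
    exact ⟨n, by simpa using hn⟩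
  · rintro ⟨n, hn⟩
    exact ⟨n, by simpa using hn, fun _ => trivial⟩

/-- **Selection.** -/
theorem Sig.select {P : α × β → Prop} (h : Sig P) (hex : ∀ a, ∃ b, P (a, b)) :
    ∃ f : α → β, Computable f ∧ ∀ a, P (a, f a) := by
  classical
  obtain ⟨c, h1, h2⟩ := h
  set Q : α → ℕ → Prop := fun a n => ((Encodable.decode (α := β) n.unpair.1).map
    (fun b => c ((a, b), n.unpair.2))).getD false = true with hQ
  have hu : Primrec (fun q : α × ℕ => q.2.unpair) := Primrec.unpair.comp Primrec.snd
  have hd : Primrec (fun q : α × ℕ => Encodable.decode (α := β) q.2.unpair.1) :=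
    Primrec.decode.comp (Primrec.fst.comp hu)
  have hprim : Primrec (fun q : α × ℕ => ((Encodable.decode (α := β) q.2.unpair.1).map
      (fun b => c ((q.1, b), q.2.unpair.2))).getD false) := by
    refine optionGetD (optionMap (f := fun (q : α × ℕ) (b : β) => c ((q.1, b), q.2.unpair.2))
      ?_ hd) (const false)
    have hv : Primrec (fun p : (α × ℕ) × β => p.1.2.unpair.2) :=
      Primrec.snd.comp (hu.comp Primrec.fst)
    exact h1.comp (((Primrec.fst.comp Primrec.fst).pair Primrec.snd).pair hv)
  have hex' : ∀ a, ∃ n, Q a n := by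
    intro a
    obtain ⟨b, hb⟩ := hex a
    obtain ⟨n, hn⟩ := (h2 (a, b)).1 hb
    refine ⟨Nat.pair (Encodable.encode b) n, ?_⟩
    simp [hQ, hn]
  have hcomp : ComputablePred (fun q : α × ℕ => Q q.1 q.2) := by
    refine PrimrecPred.computablePred (pred_of ?_)
    refine hprim.of_eq (fun q => ?_)
    simp only [hQ, Bool.decide_eq_true]
  have hfind := Computable.find hcomp hex'
  have hsome : ∀ a, ∃ b, Encodable.decode (α := β) (Nat.find (hex' a)).unpair.1 = Option.some b ∧
      P (a, b) := by
    intro a
    have hs := Nat.find_spec (hex' a)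
    simp only [hQ] at hs
    cases hd : (Encodable.decode (α := β) (Nat.find (hex' a)).unpair.1) with
    | none => rw [hd] at hs; simp at hs
    | some b =>
      rw [hd] at hs
      exact ⟨b, rfl, (h2 (a, b)).2 ⟨_, hs⟩⟩
  choose f hf1 hf2 using hsome
  refine ⟨f, ?_, hf2⟩
  have h4 : Computable (fun a => Encodable.decode (α := β) (Nat.find (hex' a)).unpair.1) :=
    Computable.decode.comp (Computable.fst.comp (Computable.unpair.comp hfind))
  exact Computable.option_some_iff.1 (h4.of_eq hf1)

end Pool.Agent.PR
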